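import Pool.Agent.Lib.helper3.AR4

namespace Pool.Agent.H.MP_aa6ebe_pr

open MeasureTheory Set Filter Topology Pool.Agent.Lib.helper3.AR
open scoped ENNReal

lemma elim (M : AddSubmonoid (ℕ →₀ ℤ)) (D : Finset ℕ) :
    (∀ i ∈ D, ∀ s : ℤ, s = 1 ∨ s = -1 → ∃ v ∈ M, (∀ j ∉ D, v j = 0) ∧
      ∑ j ∈ D.erase i, |v j| < s * v i) →
    ∀ y : ℕ →₀ ℤ, (∀ j ∉ D, y j = 0) → ∃ N : ℕ, 0 < N ∧ -(N • y) ∈ M := by
  induction D using Finset.induction_on with
  | empty =>
    intro _ y hy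
    obtain rfl : y = 0 := Finsupp.ext fun j => hy j (by simp)
    exact ⟨1, one_pos, by simp⟩
  | insert a D ha ih =>
    intro h y hy
    have kill : ∀ x : ℕ →₀ ℤ, (∀ j ∉ insert a D, x j = 0) → ∃ u ∈ M, ∑ j ∈ D, |u j| < |u a| ∧
        ∀ j ∉ D, ((u a).natAbs • x + (x a).natAbs • u) j = 0 := fun x hx => by
      obtain ⟨u, h1, h2, h3⟩ := h a (by simp) (if 0 ≤ x a then -1 else 1) (by split_ifs <;> simp)
      rw [Finset.erase_insert ha] at h3
      have h4 : 0 ≤ ∑ j ∈ D, |u j| := Finset.sum_nonneg fun _ _ => abs_nonneg _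
      refine ⟨u, h1, ?_, fun j hj => ?_⟩
      · split_ifs at h3 <;> linarith [le_abs_self (u a), neg_abs_le (u a)]
      by_cases e : j = a
      · subst e
        simp only [Finsupp.add_apply, Finsupp.smul_apply, nsmul_eq_mul, Int.natCast_natAbs]
        split_ifs at h3 with h5
        · rw [abs_of_nonneg h5, abs_of_nonpos (by linarith)]
          ring
        · rw [abs_of_nonpos (a := x j) (by linarith), abs_of_nonneg (by linarith)]
          ring
      · simp [hx j (by simp [e, hj]), h2 j (by simp [e, hj])]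
    obtain ⟨u, h1, h2, h3⟩ := kill y hy
    have h0 : ∀ u : ℕ →₀ ℤ, 0 ≤ ∑ j ∈ D, |u j| := fun u => Finset.sum_nonneg fun _ _ => abs_nonneg _
    refine (ih (fun i hi s hs => ?_) _ h3).elim fun N ⟨hN, h4⟩ => ?_
    swap
    · refine ⟨N * (u a).natAbs, Nat.mul_pos hN (Int.natAbs_pos.mpr (abs_pos.mp
        ((h0 u).trans_lt h2))), ?_⟩
      convert M.add_mem h4 (M.nsmul_mem h1 (N * (y a).natAbs)) using 1
      simp only [mul_smul, smul_add]
      abel
    obtain ⟨v, v1, v2, v3⟩ := h i (by simp [hi]) s hs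
    obtain ⟨u, h1, h2, h3⟩ := kill v v2
    refine ⟨_, M.add_mem (M.nsmul_mem v1 _) (M.nsmul_mem h1 _), h3, ?_⟩
    rw [Finset.erase_insert_of_ne (by rintro rfl; exact ha hi),
      Finset.sum_insert (by simp [ha])] at v3
    have h5 : ∑ j ∈ D.erase i, |((u a).natAbs • v + (v a).natAbs • u) j| ≤
        |u a| * ∑ j ∈ D.erase i, |v j| + |v a| * ∑ j ∈ D.erase i, |u j| := by
      rw [Finset.mul_sum, Finset.mul_sum, ← Finset.sum_add_distrib]
      refine Finset.sum_le_sum fun j _ => ?_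
      simp only [Finsupp.add_apply, Finsupp.smul_apply, nsmul_eq_mul, Int.natCast_natAbs]
      simpa [abs_mul] using abs_add_le (|u a| * v j) (|v a| * u j)
    have h6 := (h0 u).trans_lt h2
    rw [← Finset.add_sum_erase D _ hi] at h2
    have h7 : -|u i| ≤ s * u i := by
      rcases hs with rfl | rfl <;> linarith [le_abs_self (u i), neg_abs_le (u i)]
    refine h5.trans_lt ?_
    simp only [Finsupp.add_apply, Finsupp.smul_apply, nsmul_eq_mul, Int.natCast_natAbs]
    nlinarith [mul_lt_mul_of_pos_left v3 h6, mul_le_mul_of_nonneg_left h2.le (abs_nonneg (v a)),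
      mul_le_mul_of_nonneg_left h7 (abs_nonneg (v a))]

lemma bc {Ω : Type} [MeasurableSpace Ω] (μ : Measure Ω) (s : ℕ → Set Ω) (f : ℕ → ℝ)
    (hf : Summable f) (h : ∀ k, μ (s k) ≤ ENNReal.ofReal (f k)) : ∀ᵐ x ∂μ, ∀ᶠ k in atTop, x ∉ s k :=
  ae_eventually_notMem (ne_top_of_le_ne_top hf.tsum_ofReal_ne_top (ENNReal.tsum_le_tsum h))

def E (S : Finset ℕ) (s : Bool) : Set (ℕ → ℕ × Bool) :=
  {ω | ∀ k ∈ S, ∃ t, ω t = (k, s) ∧ ∀ r < t, (ω r).1 ≠ k}

lemma E_meas (S : Finset ℕ) (s : Bool) : MeasurableSet (E S s) := by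
  unfold E
  measurability

lemma E_le (ν : PMF ℕ) (S : Finset ℕ) (s : Bool) :
    P (sg ν) (E S s) ≤ ENNReal.ofReal ((1 / 2) ^ S.card) := by
  let Φ : Finset ℕ → (ℕ → ℕ × Bool) → ℕ → ℕ × Bool := fun B ω t =>
    ((ω t).1, xor (decide ((ω t).1 ∈ B)) (ω t).2)
  have hm : ∀ B, Measurable (Φ B) := fun B => measurable_pi_lambda _ fun t =>
    (Measurable.of_discrete (f := fun x : ℕ × Bool => (x.1, xor (decide (x.1 ∈ B)) x.2))).comp
      (measurable_pi_apply t)
  have h1 : ∀ B, P (sg ν) (Φ B ⁻¹' E S s) = P (sg ν) (E S s) := fun B => by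
    conv_rhs => rw [← sg_flip ν fun k => decide (k ∈ B), P_map]
    exact (Measure.map_apply (hm B) (E_meas S s)).symm
  have h2 := measure_biUnion_finset (μ := P (sg ν)) (s := S.powerset) (f := fun B => Φ B ⁻¹' E S s)
    (fun B hB B' hB' hne => Set.disjoint_left.mpr fun ω h3 h4 => hne (Finset.ext fun k => by
      simp only [Finset.coe_powerset, mem_preimage, mem_powerset_iff, Finset.coe_subset] at hB hB'
      by_cases hk : k ∈ S
      · obtain ⟨t, a1, a2⟩ := h3 k hk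
        obtain ⟨r, b1, b2⟩ := h4 k hk
        simp only [Φ, Prod.mk.injEq] at a1 a2 b1 b2
        obtain rfl : t = r := le_antisymm (not_lt.mp fun h => a2 r h b1.1)
          (not_lt.mp fun h => b2 t h a1.1)
        have := a1.2.trans b1.2.symm
        simpa [a1.1] using this
      · exact ⟨fun h => absurd (hB h) hk, fun h => absurd (hB' h) hk⟩))
    fun B _ => hm B (E_meas S s)
  simp only [h1, Finset.sum_const, Finset.card_powerset, nsmul_eq_mul] at h2
  have h3 := h2.ge.trans prob_le_one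
  rw [mul_comm, ← ENNReal.le_div_iff_mul_le (by simp) (by simp)] at h3
  refine h3.trans_eq ?_
  simp [ENNReal.ofReal_pow, ENNReal.ofReal_inv_of_pos, ENNReal.inv_pow]

noncomputable def u (k : ℕ) : ℝ := (1 / 2) ^ (k ^ 2)

lemma u_pos (k : ℕ) : 0 < u k := by unfold u; positivity

lemma u_succ (k : ℕ) : u (k + 1) = u k * (1 / 2) ^ k * (1 / 2) ^ k / 2 := by
  rw [u, u, show (k + 1) ^ 2 = k ^ 2 + k + k + 1 by ring]
  ring

lemma u_half (k : ℕ) : u (k + 1) ≤ u k / 2 := by
  have h : (1 / 2 : ℝ) ^ k ≤ 1 := pow_le_one₀ (by norm_num) (by norm_num)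
  have := u_pos k
  rw [u_succ]
  gcongr
  exact (mul_le_of_le_one_right (by positivity) h).trans (mul_le_of_le_one_right this.le h)

lemma u_pos' (k : ℕ) : 0 < u k - u (k + 1) := by linarith [u_half k, u_pos k]

lemma u_sum : ∑' j, ENNReal.ofReal (u j - u (j + 1)) = 1 := by
  have h : HasSum (fun j => u j - u (j + 1)) 1 := by
    rw [hasSum_iff_tendsto_nat_of_nonneg fun j => (u_pos' j).le]
    simp only [Finset.sum_range_sub']
    have := (tendsto_pow_atTop_nhds_zero_of_lt_one (r := (1 / 2 : ℝ)) (by norm_num)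
      (by norm_num)).comp (tendsto_pow_atTop (α := ℕ) two_ne_zero)
    simpa [u] using (tendsto_const_nhds (x := (1 : ℝ))).sub this
  rw [← ENNReal.ofReal_tsum_of_nonneg (fun j => (u_pos' j).le) h.summable, h.tsum_eq,
    ENNReal.ofReal_one]

noncomputable def nv : PMF ℕ :=
  ⟨fun j => ENNReal.ofReal (u j - u (j + 1)), u_sum ▸ ENNReal.summable.hasSum⟩

lemma nv_ne (i : ℕ) : nv i ≠ 0 := (ENNReal.ofReal_pos.mpr (u_pos' i)).ne'

lemma nv_Ioi (i : ℕ) : nv.toMeasure (Ioi i) = ENNReal.ofReal (u (i + 1)) := by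
  rw [← compl_Iic, prob_compl_eq_one_sub .of_discrete,
    show Iic i = (Finset.range (i + 1) : Set ℕ) by ext; simp, PMF.toMeasure_apply_finset]
  change 1 - ∑ j ∈ _, ENNReal.ofReal _ = _
  rw [← ENNReal.ofReal_sum_of_nonneg fun j _ => (u_pos' j).le, ← ENNReal.ofReal_one,
    ← ENNReal.ofReal_sub _ (Finset.sum_nonneg fun j _ => (u_pos' j).le), Finset.sum_range_sub']
  simp [u]

def a (k : ℕ) : ℕ := 2 ^ (k ^ 2 + k)

lemma a_u (k : ℕ) : a k * u k * (1 / 2) ^ k = 1 := by
  rw [a, u, mul_assoc, ← pow_add]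
  push_cast
  rw [← mul_pow]
  simp

lemma levels : ∀ᵐ I ∂P nv, ∀ᶠ k in atTop, (∃ t < a k, I t = k) ∧ ∀ t < a k, I t ≤ k := by
  have hg : Summable fun k : ℕ => (1 / 2 : ℝ) ^ k := summable_geometric_two
  have h1 := bc (P nv) (fun k => Set.pi (Finset.range (a k)) fun _ => {k}ᶜ) _ (hg.mul_left 2) fun k => by
    rw [cyl, Finset.card_range]
    have h := pow_le (F := nv.toMeasure {k}ᶜ) prob_le_one (a k)
    have h0 : (0 : ℝ) < a k := by unfold a; positivity
    rw [← prob_compl_eq_one_sub .of_discrete, compl_compl,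
      PMF.toMeasure_apply_singleton _ _ .of_discrete, mul_comm,
      ← ENNReal.le_div_iff_mul_le (Or.inl (by simpa using h0.ne')) (by simp)] at h
    refine h.trans ?_
    change (ENNReal.ofReal _)⁻¹ / _ ≤ _
    rw [← ENNReal.ofReal_inv_of_pos (u_pos' k), ← ENNReal.ofReal_natCast,
      ← ENNReal.ofReal_div_of_pos h0]
    refine ENNReal.ofReal_le_ofReal ?_
    rw [div_le_iff₀ h0, inv_le_iff_one_le_mul₀ (u_pos' k)]
    have : 0 < a k * (1 / 2 : ℝ) ^ k := by positivity
    nlinarith [u_half k, a_u k]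
  have h2 := bc (P nv) (fun k => ⋃ t ∈ Finset.range (a k), (fun I => I t) ⁻¹' Ioi k) _ hg fun k => by
    refine (measure_biUnion_finset_le _ _).trans ?_
    simp only [one_coord, nv_Ioi, Finset.sum_const, Finset.card_range, nsmul_eq_mul]
    rw [← ENNReal.ofReal_natCast, ← ENNReal.ofReal_mul (by positivity)]
    refine ENNReal.ofReal_le_ofReal ?_
    rw [u_succ, ← mul_div_assoc, ← mul_assoc, ← mul_assoc, a_u]
    have : 0 < (1 / 2 : ℝ) ^ k := by positivity
    linarith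
  filter_upwards [h1, h2] with I h1 h2
  filter_upwards [h1, h2] with k h1 h2
  simpa [Set.mem_pi] using And.intro h1 h2

lemma signs : ∀ᵐ ω ∂P (sg nv), ∀ᶠ r in atTop, ∀ i < 2 * r, ∀ s,
    ω ∉ E ((Finset.Ico r (2 * r)).image (Nat.pair i)) s := by
  have hg := (summable_pow_mul_geometric_of_norm_lt_one 1 (r := (1 / 2 : ℝ))
    (by norm_num)).mul_left 4
  refine (bc (P (sg nv)) (fun r => ⋃ i ∈ Finset.range (2 * r), ⋃ s ∈ Finset.univ,
    E ((Finset.Ico r (2 * r)).image (Nat.pair i)) s) _ hg fun r => ?_).mono fun ω h =>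
      h.mono fun r h => by simpa using h
  refine (measure_biUnion_finset_le _ _).trans ((Finset.sum_le_card_nsmul _ _
    (2 • ENNReal.ofReal ((1 / 2) ^ r)) fun i _ => (measure_biUnion_finset_le _ _).trans
      (Finset.sum_le_card_nsmul _ _ _ fun s _ => (E_le _ _ _).trans_eq ?_)).trans_eq ?_)
  · rw [Finset.card_image_of_injective _ fun b c h => (Nat.pair_eq_pair.mp h).2, Nat.card_Ico]
    congr 2
    omega
  · rw [← ENNReal.ofReal_nsmul, ← ENNReal.ofReal_nsmul]
    congr 1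
    simp
    ring

end Pool.Agent.H.MP_aa6ebe_pr
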