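import Pool.Agent.H.MP_aa6ebe_pr.A

namespace Pool.Agent.H.MP_aa6ebe_pr

open MeasureTheory Set Filter Topology Pool.Agent.Lib.helper3.AR

def L : ℕ → ℕ
  | 0 => 2
  | k + 1 => a (k + 1) * L k + 1

lemma L_mono : StrictMono L := strictMono_nat_of_lt_succ fun k => by
  have : 1 ≤ a (k + 1) := Nat.one_le_two_pow
  rw [L]
  nlinarith

lemma L_two (k : ℕ) : 2 ≤ L k := L_mono.monotone (Nat.zero_le k)

def amp (k : ℕ) : ℕ := if k.unpair.2 = 0 then 1 else L k

lemma amp_le (k : ℕ) : 1 ≤ amp k ∧ amp k ≤ L k := by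
  have := L_two k
  unfold amp
  split_ifs <;> omega

noncomputable def gm (k : ℕ) : Z := Multiplicative.ofAdd (Finsupp.single k.unpair.1 (amp k))

lemma st_eq (x : ℕ × Bool) : (st gm x).toAdd =
    Finsupp.single x.1.unpair.1 ((if x.2 then 1 else -1) * amp x.1 : ℤ) := by
  unfold st
  split_ifs <;> simp [gm]

lemma st_inj : Function.Injective (st gm) := by
  rintro ⟨k, b⟩ ⟨l, c⟩ h
  have h := congrArg Multiplicative.toAdd h
  have h1 := amp_le k
  have h2 := amp_le l
  rw [st_eq, st_eq, Finsupp.single_eq_single_iff] at h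
  obtain ⟨h3, h4⟩ : k.unpair.1 = l.unpair.1 ∧ b = c ∧ amp k = amp l := by
    cases b <;> cases c <;> simp at h ⊢ <;> omega
  refine Prod.ext ?_ h4.1
  have h5 := h4.2
  have := L_two k
  have := L_two l
  unfold amp at h5
  split_ifs at h5 with h6 h7 h7
  · exact Nat.pairEquiv.symm.injective (Prod.ext h3 (h6.trans h7.symm))
  · omega
  · omega
  · exact L_mono.injective h5

lemma gm_gen : Subgroup.closure (range gm) = ⊤ :=
  bs_gen fun k => ⟨Nat.pair k 0, by simp [gm, amp, bs]⟩

lemma det2 (ω : ℕ → ℕ × Bool)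
    (h1 : ∀ᶠ k in atTop, (∃ t < a k, (ω t).1 = k) ∧ ∀ t < a k, (ω t).1 ≤ k)
    (h2 : ∀ᶠ r in atTop, ∀ i < 2 * r, ∀ s, ω ∉ E ((Finset.Ico r (2 * r)).image (Nat.pair i)) s)
    (n m : ℕ) : (X (fun t => st gm (ω t)) (n + m))⁻¹ ∈
      Subsemigroup.closure (range fun k => X (fun t => st gm (ω t)) (n + k)) := by
  classical
  set z := fun t => st gm (ω t)
  set S := Subsemigroup.closure (range fun k => X z (n + k))
  have hS : ∀ k, X z (n + k) ∈ S := fun k => Subsemigroup.subset_closure ⟨k, rfl⟩
  let M : AddSubmonoid (ℕ →₀ ℤ) :=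
    { carrier := {x | x = 0 ∨ Multiplicative.ofAdd x ∈ S}
      zero_mem' := Or.inl rfl
      add_mem' := by
        rintro x y (rfl | hx) (rfl | hy)
        · simp
        · simp [hy]
        · simp [hx]
        · exact Or.inr (S.mul_mem hx hy) }
  have hY : ∀ j, (X z (j + 1)).toAdd = (X z j).toAdd +
      Finsupp.single (ω j).1.unpair.1 ((if (ω j).2 then 1 else -1) * amp (ω j).1 : ℤ) := fun j => by
    rw [X_succ, toAdd_mul, st_eq]
  have hsupp : ∀ R j, (∀ t < j, (ω t).1.unpair.1 < R) → ∀ i ∉ Finset.range R, (X z j).toAdd i = 0 := by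
    intro R j h i hi
    induction j with
    | zero => rfl
    | succ j ih =>
      rw [hY, Finsupp.add_apply, ih fun t ht => h t (by omega), Finsupp.single_eq_of_ne, add_zero]
      have := h j (by omega)
      rw [Finset.mem_range] at hi
      omega
  have hnorm : ∀ (D : Finset ℕ) (k j : ℕ), (∀ t < j, (ω t).1 ≤ k) →
      ∑ i ∈ D, |(X z j).toAdd i| ≤ j * L k := by
    intro D k j h
    induction j with
    | zero => simp [X_zero]
    | succ j ih =>
      have e : ∀ i, |(X z (j + 1)).toAdd i| ≤ |(X z j).toAdd i| +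
          if (ω j).1.unpair.1 = i then (L k : ℤ) else 0 := fun i => by
        have := (amp_le (ω j).1).2.trans (L_mono.monotone (h j (by omega)))
        rw [hY, Finsupp.add_apply, Finsupp.single_apply]
        refine (abs_add_le _ _).trans (add_le_add_right ?_ _)
        split_ifs <;> simp [this]
      refine (Finset.sum_le_sum fun i _ => e i).trans ?_
      rw [Finset.sum_add_distrib, Finset.sum_ite_eq]
      have := ih fun t ht => h t (by omega)
      push_cast
      split_ifs <;> nlinarith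
  obtain ⟨k0, h1⟩ := eventually_atTop.mp h1
  obtain ⟨r, h2, r1, r2⟩ := (h2.and ((eventually_ge_atTop k0).and (eventually_gt_atTop
    ((Finset.range (n + m)).sup fun t => (ω t).1)))).exists
  have r3 : ∀ t < n + m, (ω t).1 < r := fun t ht =>
    (Finset.le_sup (f := fun t => (ω t).1) (Finset.mem_range.mpr ht)).trans_lt r2
  refine (elim M (Finset.range (2 * r)) (fun i hi s hs => ?_) _ (hsupp (2 * r) (n + m) fun t ht =>
    (Nat.unpair_left_le _).trans_lt ((r3 t ht).trans_le (by omega)))).elim fun N ⟨hN, h3⟩ => ?_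
  swap
  · obtain ⟨N, rfl⟩ := Nat.exists_eq_add_of_lt hN
    have hy : (X z (n + m)).toAdd ∈ M := Or.inr (hS m)
    have h4 : (1 : Z) ∈ S := by
      have : ∀ N : ℕ, X z (n + m) ^ (N + 1) ∈ S := fun N => by
        induction N with
        | zero => simpa using hS m
        | succ N ih => rw [pow_succ]; exact S.mul_mem ih (hS m)
      rcases h3 with h3 | h3
      · have := this N
        rwa [show X z (n + m) ^ (N + 1) = 1 by simpa using congrArg Multiplicative.ofAdd h3] at this
      · simpa using S.mul_mem (this N) h3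
    have h5 := M.add_mem h3 (M.nsmul_mem hy N)
    rw [zero_add, succ_nsmul, neg_add_rev, neg_add_cancel_right] at h5
    rcases h5 with h5 | h5
    · rwa [show (X z (n + m))⁻¹ = 1 from congrArg Multiplicative.ofAdd h5]
    · exact h5
  have h3 := h2 i (Finset.mem_range.mp hi) (decide (s = -1))
  simp only [E, mem_ofPred_eq, Finset.forall_mem_image, not_forall, Finset.mem_Ico] at h3
  obtain ⟨b, ⟨b1, b2⟩, h3⟩ := h3
  have b3 := Nat.right_le_pair i b
  obtain ⟨h4, h5⟩ := h1 (Nat.pair i b) (by omega)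
  have h6 : ∃ t, (ω t).1 = Nat.pair i b := h4.imp fun t => And.right
  have h7 : Nat.find h6 < a (Nat.pair i b) := by
    obtain ⟨t, h7, h8⟩ := h4
    exact (Nat.find_min' h6 h8).trans_lt h7
  have h8 := Nat.find_spec h6
  have h9 := fun t => Nat.find_min h6 (m := t)
  generalize Nat.find h6 = T at h7 h8 h9
  have hs' : (if (ω T).2 then 1 else -1) = s := by
    have : (ω T).2 ≠ decide (s = -1) := fun h => h3 ⟨T, Prod.ext h8 h, h9⟩
    rcases hs with rfl | rfl <;> simpa using this
  obtain ⟨k, hk⟩ : ∃ k, Nat.pair i b = k + 1 := ⟨Nat.pair i b - 1, by omega⟩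
  obtain ⟨j, hj⟩ : ∃ j, T + 1 = n + j := ⟨T + 1 - n, by
    by_contra hc
    have := r3 T (by omega)
    omega⟩
  refine ⟨(X z (T + 1)).toAdd, Or.inr (hj ▸ hS j), hsupp _ _ fun t ht => ?_, ?_⟩
  · have e1 := h5 t (by omega)
    have e2 := Nat.pair_lt_max_add_one_sq i b
    have e3 := Nat.max_sq_add_min_le_pair (ω t).1.unpair.1 (ω t).1.unpair.2
    rw [Nat.pair_unpair] at e3
    have e4 : (max i b + 1) ^ 2 ≤ (2 * r) ^ 2 :=
      Nat.pow_le_pow_left (by have := Finset.mem_range.mp hi; omega) 2
    exact (le_max_left _ _).trans_lt (lt_of_pow_lt_pow_left₀ 2 (Nat.zero_le _)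
      (show max (ω t).1.unpair.1 (ω t).1.unpair.2 ^ 2 < (2 * r) ^ 2 by omega))
  · have e1 := hnorm (Finset.range (2 * r)) k T fun t ht => by
      have := h5 t (by omega)
      have := h9 t ht
      omega
    rw [← Finset.add_sum_erase _ _ hi] at e1
    have e2 : amp (Nat.pair i b) = a (k + 1) * L k + 1 := by
      rw [amp, Nat.unpair_pair, if_neg (by simp; omega), hk, L]
    rw [hY, hs', h8, Nat.unpair_pair, e2, Finsupp.add_apply, Finsupp.single_eq_same,
      Finset.sum_congr rfl (g := fun j => |(X z T).toAdd j|) fun j hj => by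
        rw [Finsupp.add_apply, Finsupp.single_eq_of_ne (Finset.ne_of_mem_erase hj), add_zero]]
    have e3 : (T : ℤ) * L k ≤ a (k + 1) * L k := by
      rw [hk] at h7
      exact_mod_cast Nat.mul_le_mul_right _ h7.le
    push_cast
    rcases hs with rfl | rfl <;>
      linarith [le_abs_self ((X z T).toAdd i), neg_abs_le ((X z T).toAdd i)]

theorem yesAR [MeasurableSpace Z] [DiscreteMeasurableSpace Z] (n : ℕ) :
    ∀ᵐ z ∂P ((sg nv).map (st gm)), Subsemigroup.closure (range fun k => X z (n + k)) = ⊤ := by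
  have hg := Function.leftInverse_invFun st_inj
  have h1 : ∀ᵐ ω ∂P (sg nv), ∀ m, (X (fun t => st gm (ω t)) (n + m))⁻¹ ∈
      Subsemigroup.closure (range fun k => X (fun t => st gm (ω t)) (n + k)) := by
    have h2 := levels
    rw [← sg_fst nv, P_map] at h2
    filter_upwards [ae_of_ae_map (Measurable.aemeasurable (by fun_prop)) h2, signs] with ω h2 h3
    exact det2 ω h2 h3 n
  have e : sg nv = ((sg nv).map (st gm)).map (Function.invFun (st gm)) := by
    rw [PMF.map_comp, hg.comp_eq_id, PMF.map_id]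
  rw [e, P_map] at h1
  filter_upwards [ae_of_ae_map (Measurable.aemeasurable (measurable_pi_lambda _ fun t =>
    (Measurable.of_discrete (f := Function.invFun (st gm))).comp (measurable_pi_apply t))) h1,
    ae_supp _, ae_io _] with z h2 h3 h4
  have : (fun t => st gm (Function.invFun (st gm) (z t))) = z := funext fun t => by
    obtain ⟨x, -, hx⟩ := (PMF.mem_support_map_iff _ _ _).mp (h3 t)
    rw [← hx, hg]
  simp only [Function.comp_apply, this] at h2
  exact top_of_inv (st_gen nv nv_ne gm gm_gen) z n (fun g hg => h4 g hg n) h2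

end Pool.Agent.H.MP_aa6ebe_pr
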